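import Pool.Agent.H44.DV.Targets

set_option autoImplicit false

namespace Pool.Agent.H60.DV
open Pool.Agent.H44.DU

theorem pf_PL : D_PL := by
  intro ε M m b hε hM h0 hstep hm
  obtain ⟨j, hj, hmax⟩ := Finset.exists_max_image (Finset.range (m + 1))
    (fun k => b k + ε / 2 * (k : ℝ)) ⟨0, by simp⟩
  have hjm : j ≤ m := Nat.lt_succ_iff.1 (Finset.mem_range.1 hj)
  have hlow : ∀ k, j ≤ k → k ≤ m → -(M * ((k : ℝ) - j)) ≤ b k - b j := by
    intro k hk
    induction k, hk using Nat.le_induction with
    | base => intro _; simp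
    | succ k hk ih =>
      intro hkm
      have h1 := ih (by omega)
      have h2 := hstep k (by omega)
      push_cast
      linarith
  refine ⟨j, hjm, ?_, ?_⟩
  · intro k hk hkm
    have h1 := hmax k (Finset.mem_range.2 (by omega))
    linarith
  · have h1 := hmax 0 (by simp)
    simp only [h0, Nat.cast_zero, mul_zero, add_zero] at h1
    have h2 := hlow m hjm le_rfl
    have h3 : (j : ℝ) ≤ m := by exact_mod_cast hjm
    have h4 : ε / 2 * (j : ℝ) ≤ ε / 2 * m := mul_le_mul_of_nonneg_left h3 (by linarith)
    linarith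

end Pool.Agent.H60.DV
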