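import Pool.Agent.H44.DV.Targets
import Pool.Agent.H66.DU.QB

/-!
# Heights relative to the scale of words with a small scale
-/

set_option autoImplicit false

namespace Pool.Agent.H60.DV

open Pool.Agent.H44.DU Pool.Agent.H66.DU

theorem pf_QH (h1 : T_PT) (h2 : T_CR) (h3 : T_HT) (h4 : T_GA) : D_QH := by
  intro n S K
  obtain ⟨c₁, hc₁, hGain⟩ := h4 n S K
  obtain ⟨α, hα0, hα1, hα⟩ := exists_alpha S
  set D : ℝ := ∑ s : Side n, (‖S.P s‖ + ‖S.Q s‖) with hD
  have hD0 : 0 ≤ D := Finset.sum_nonneg fun s _ => add_nonneg (norm_nonneg _) (norm_nonneg _)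
  set al : ℝ := α ^ (3 * n + 1) with hal
  have hal0 : 0 < al := by positivity
  have hD1 : 0 < D + 1 := by linarith
  refine ⟨c₁ * al / 2, by positivity, c₁ * al / (2 * (D + 1)), by positivity, ?_⟩
  intro t ht w l x hlen1 hη hrun
  rw [end_ht h1 t x w l hrun]
  -- the gain
  set W := w ++ [l] with hW
  set k := W.length - (3 * n + 1) with hk
  have hdl : (W.drop k).length = 3 * n + 1 := by
    rw [List.length_drop]; omega
  obtain ⟨u', r, r', w', he, hg⟩ := hGain t ht _ _ (S.run_drop hrun k) hdl.ge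
  rw [← S.g_append, ← List.append_assoc] at hg
  set u := W.take k ++ u' with hu
  have hWu : W = u ++ r :: r' :: w' := by
    rw [hu, List.append_assoc, ← he, List.take_append_drop]
  have hrun1 : S.Run t (u ++ [r] ++ [r']) x := by
    rw [hWu, show u ++ r :: r' :: w' = (u ++ [r] ++ [r']) ++ w' by simp, S.run_append] at hrun
    exact hrun.1
  obtain ⟨i1, i2, -⟩ := h3 n S t x u r r' hrun1
  -- the end
  have j1 : S.ht t (u ++ [r]) r' x ≤ S.ht t w l x := by
    refine hmono h3 t x w' (u ++ [r]) r' w l ?_ hrun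
    rw [← hW, hWu]; simp
  -- the beginning
  obtain ⟨r0, v', hr0⟩ : ∃ r0 v', u ++ [r] = r0 :: v' := by
    cases hh : u ++ [r] with
    | nil => simp at hh
    | cons r0 v' => exact ⟨r0, v', rfl⟩
  have hrun2 : S.Run t (u ++ [r]) x := by
    rw [S.run_append] at hrun1
    exact hrun1.1
  have j2 : S.ht t [] r0 x ≤ S.ht t u r x :=
    hmono h3 t x v' [] r0 u r (by rw [List.nil_append, hr0]) hrun2
  have j3 : S.ht t [] r0 x = (S.pt t r0 x).im := by
    simp [Surf.ht, Surf.g_nil, Surf.A, Surf.B]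
  have hInJ : S.InJ t r0 x := by
    rw [hr0] at hrun2
    exact hrun2.1
  have j4 := pt_im_ge h1 t x r0 hInJ
  rw [← hD] at j4
  have hAW := S.A_pos W
  have hAu := S.A_pos (u ++ [r])
  have hWA : S.A W = S.A (u ++ [r]) * S.A (r' :: w') := by
    rw [← S.A_append, hWu]
    congr 1
    simp
  have hle : al ≤ S.A (r' :: w') := by
    apply A_ge α hα0 hα1 hα
    have h5 := congrArg List.length he
    rw [hdl] at h5
    simp only [List.length_append, List.length_cons] at h5 ⊢
    omega
  -- assemble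
  have k1 : -D + S.sg t r r' (S.g t (u ++ [r]) x) / S.A (u ++ [r]) ≤ S.ht t w l x := by
    linarith
  have k2 : S.A W * (-D + S.sg t r r' (S.g t (u ++ [r]) x) / S.A (u ++ [r])) ≤
      S.A W * S.ht t w l x := mul_le_mul_of_nonneg_left k1 hAW.le
  have k3 : S.A W * (-D + S.sg t r r' (S.g t (u ++ [r]) x) / S.A (u ++ [r])) =
      -(S.A W * D) + S.A (r' :: w') * S.sg t r r' (S.g t (u ++ [r]) x) := by
    rw [hWA]
    field_simp
  have k4 : al * c₁ ≤ S.A (r' :: w') * S.sg t r r' (S.g t (u ++ [r]) x) :=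
    mul_le_mul hle hg hc₁.le (S.A_pos _).le
  have k5 : S.A W * D ≤ c₁ * al / 2 := by
    calc S.A W * D ≤ c₁ * al / (2 * (D + 1)) * D := mul_le_mul_of_nonneg_right hη hD0
      _ ≤ c₁ * al / (2 * (D + 1)) * (D + 1) := by
        apply mul_le_mul_of_nonneg_left (by linarith)
        positivity
      _ = c₁ * al / 2 := by
        field_simp
  linarith

end Pool.Agent.H60.DV
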