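import Pool.Agent.H44.DV.Targets

set_option autoImplicit false

namespace Pool.Agent.H60.DV
open Pool.Agent.H44.DU

lemma ncard_lists (n r : ℕ) : {l : List (Side n) | l.length = r}.ncard = (n * 3) ^ r := by
  have h1 : Nat.card {l : List (Side n) // l.length = r} = (n * 3) ^ r := by
    have h2 : Nat.card (List.Vector (Side n) r) = (n * 3) ^ r := by
      rw [Nat.card_eq_fintype_card, card_vector]
      simp
    exact h2
  rw [← h1]
  rfl

theorem pf_WN (h1 : T_X2) (h2 : T_X3) : D_WN := by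
  intro n S t₀ ε hε
  rcases Nat.eq_zero_or_pos n with hn | hn
  · subst hn
    refine ⟨1, one_pos, 1, one_pos, fun m => ?_⟩
    have h3 : {w : List (Side 0) | w.length = m ∧ ∃ t x, |t - t₀| < 1 ∧ S.Run t w x}.ncard ≤ 1 := by
      have h4 : {w : List (Side 0) | w.length = m ∧ ∃ t x, |t - t₀| < 1 ∧ S.Run t w x} ⊆ {[]} := by
        rintro w -
        cases w with
        | nil => rfl
        | cons a l => exact a.1.elim0
      calc _ ≤ ({[]} : Set (List (Side 0))).ncard := Set.ncard_le_ncard h4 (Set.finite_singleton _)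
        _ = 1 := Set.ncard_singleton _
    have h5 : (1 : ℝ) ≤ Real.exp (ε * m) := Real.one_le_exp (by positivity)
    have h6 : ({w : List (Side 0) | w.length = m ∧ ∃ t x, |t - t₀| < 1 ∧ S.Run t w x}.ncard : ℝ) ≤
        1 := by exact_mod_cast h3
    linarith
  obtain ⟨m₁, hm₁, hexp⟩ : ∃ m₁ : ℕ, 0 < m₁ ∧ (6 * n * m₁ : ℝ) ≤ Real.exp (ε * m₁) := by
    refine ⟨⌈12 * (n : ℝ) / ε ^ 2⌉₊ + 1, Nat.succ_pos _, ?_⟩
    set x : ℝ := ((⌈12 * (n : ℝ) / ε ^ 2⌉₊ + 1 : ℕ) : ℝ) with hx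
    have hx0 : 0 < x := by rw [hx]; positivity
    have hx1 : 12 * (n : ℝ) / ε ^ 2 ≤ x := by
      rw [hx]
      push_cast
      have := Nat.le_ceil (12 * (n : ℝ) / ε ^ 2)
      linarith
    have h3 : 12 * (n : ℝ) ≤ x * ε ^ 2 := by
      rwa [div_le_iff₀ (by positivity)] at hx1
    have h4 := Real.quadratic_le_exp_of_nonneg (x := ε * x) (by positivity)
    have h5 : 6 * (n : ℝ) * x ≤ (ε * x) ^ 2 / 2 := by nlinarith
    have h6 : 0 < ε * x := by positivity
    linarith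
  obtain ⟨δ, hδ, hW⟩ := h1 n S t₀ m₁ hm₁
  have hn3 : (1 : ℝ) ≤ (n * 3 : ℝ) := by
    have : (1 : ℝ) ≤ n := by exact_mod_cast hn
    linarith
  refine ⟨δ, hδ, (n * 3 : ℝ) ^ m₁, by positivity, fun m => ?_⟩
  set q := m / m₁ with hq
  set r := m % m₁ with hr
  have hm : q * m₁ + r = m := by
    rw [hq, hr, mul_comm]; exact Nat.div_add_mod m m₁
  have hrm : r < m₁ := Nat.mod_lt _ hm₁
  have hX := h2 n S {t | |t - t₀| < δ} m₁ q
  simp only [Set.mem_setOf_eq] at hX
  set A := {w : List (Side n) | w.length = q * m₁ ∧ ∃ t x, |t - t₀| < δ ∧ S.Run t w x} with hA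
  have hfin : A.Finite :=
    (List.finite_length_eq (Side n) (q * m₁)).subset (fun w hw => hw.1)
  have hB : {l : List (Side n) | l.length = r}.Finite := List.finite_length_eq (Side n) r
  have hcard : {w : List (Side n) | w.length = m ∧ ∃ t x, |t - t₀| < δ ∧ S.Run t w x}.ncard ≤
      A.ncard * (n * 3) ^ r := by
    rw [← ncard_lists n r, ← Set.ncard_prod]
    refine Set.ncard_le_ncard_of_injOn (fun w => (w.take (q * m₁), w.drop (q * m₁))) ?_ ?_
      (hfin.prod hB)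
    · rintro w ⟨hw, t, x, ht, hrun⟩
      refine ⟨⟨?_, t, x, ht, S.run_take hrun _⟩, ?_⟩
      · rw [List.length_take, hw]; omega
      · simp only [Set.mem_setOf_eq, List.length_drop, hw]; omega
    · intro w _ w' _ h
      simp only [Prod.mk.injEq] at h
      rw [← List.take_append_drop (q * m₁) w, ← List.take_append_drop (q * m₁) w', h.1, h.2]
  have hA2 : (A.ncard : ℝ) ≤ Real.exp (ε * m₁) ^ q := by
    have h3 : (A.ncard : ℝ) ≤ (6 * n * m₁ : ℝ) ^ q := by
      have h4 := hX.trans (Nat.pow_le_pow_left hW q)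
      exact_mod_cast h4
    exact h3.trans (pow_le_pow_left₀ (by positivity) hexp q)
  have hA3 : Real.exp (ε * m₁) ^ q ≤ Real.exp (ε * m) := by
    rw [← Real.exp_nat_mul]
    apply Real.exp_le_exp.2
    have h5 : ((q * m₁ : ℕ) : ℝ) ≤ m := by exact_mod_cast (by omega : q * m₁ ≤ m)
    push_cast at h5
    nlinarith
  have h6 : ((n * 3 : ℝ)) ^ r ≤ (n * 3 : ℝ) ^ m₁ := pow_le_pow_right₀ hn3 hrm.le
  calc ({w : List (Side n) | w.length = m ∧ ∃ t x, |t - t₀| < δ ∧ S.Run t w x}.ncard : ℝ)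
      ≤ (A.ncard : ℝ) * (n * 3 : ℝ) ^ r := by exact_mod_cast hcard
    _ ≤ Real.exp (ε * m) * (n * 3 : ℝ) ^ m₁ :=
        mul_le_mul (hA2.trans hA3) h6 (by positivity) (Real.exp_pos _).le
    _ = (n * 3 : ℝ) ^ m₁ * Real.exp (ε * m) := mul_comm _ _

end Pool.Agent.H60.DV
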